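import Pool.Agent.H321R3.AP.Stmts2
import Pool.Agent.H321R3.AP.TaskC
import Pool.Agent.H336R2.V.Raman

open Finset

namespace H321AP

open H343

namespace TH2

/-- the numerator of `th` -/
noncomputable def jj (m q a : ℕ) : ℤ := ((bb m q a : ℤ) * m - a) / q

theorem jj_mul (m q a : ℕ) (hq : 1 ≤ q) (hqm : q.Coprime m) :
    jj m q a * q = (bb m q a : ℤ) * m - a := by
  unfold jj
  apply Int.ediv_mul_cancel
  have : NeZero q := ⟨by omega⟩
  rw [← ZMod.intCast_zmod_eq_zero_iff_dvd]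
  push_cast
  unfold bb
  rw [ZMod.natCast_zmod_val, mul_assoc, mul_comm ((m : ZMod q)⁻¹),
    ZMod.coe_mul_inv_eq_one m hqm.symm]
  ring

theorem th_eq (m q a : ℕ) (hm : 1 ≤ m) (hq : 1 ≤ q) (hqm : q.Coprime m) :
    th m q a = (jj m q a : ℝ) / m := by
  have h := jj_mul m q a hq hqm
  have hq' : (q : ℝ) ≠ 0 := by
    have : q ≠ 0 := by omega
    exact_mod_cast this
  have hmr : (m : ℝ) ≠ 0 := by
    have : m ≠ 0 := by omega
    exact_mod_cast this
  unfold th
  have h' : (jj m q a : ℝ) * q = (bb m q a : ℝ) * m - a := by exact_mod_cast h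
  field_simp
  linarith

/-- periodicity -/
theorem ex_mod (m n : ℕ) (hm : 1 ≤ m) (j : ℤ) :
    ex ((n : ℝ) * ((j : ℝ) / m)) = ex (((n % m : ℕ) : ℝ) * ((j : ℝ) / m)) := by
  have hmr : (m : ℝ) ≠ 0 := by
    have : m ≠ 0 := by omega
    exact_mod_cast this
  obtain ⟨k, hk⟩ : ∃ k : ℕ, k = n / m := ⟨_, rfl⟩
  obtain ⟨r, hr⟩ : ∃ r : ℕ, r = n % m := ⟨_, rfl⟩
  have h2 : (n : ℝ) = (m : ℝ) * (k : ℝ) + (r : ℝ) := by
    rw [hk, hr]
    exact_mod_cast (Nat.div_add_mod n m).symm
  have h1 : (n : ℝ) * ((j : ℝ) / m) = (((k : ℤ) * j : ℤ) : ℝ) + (r : ℝ) * ((j : ℝ) / m) := by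
    rw [h2]
    push_cast
    field_simp
  rw [← hr]
  rw [h1, Gauss.ex_add, Gauss.ex_int, one_mul]

/-- regrouping by residues -/
theorem regroup (m : ℕ) (hm : 2 ≤ m) (x : ℝ) (j : ℤ) :
    ∑ n ∈ (Icc 1 ⌊x⌋₊).filter (fun n => Nat.Coprime n m),
      (ArithmeticFunction.vonMangoldt n : ℂ) * ex (n * ((j : ℝ) / m)) =
    ∑ A ∈ (range m).filter (fun A => Nat.Coprime A m),
      ((∑ n ∈ (Icc 1 ⌊x⌋₊).filter (fun n => n % m = A), ArithmeticFunction.vonMangoldt n : ℝ) : ℂ)
        * ex (A * ((j : ℝ) / m)) := by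
  classical
  have hmaps : ∀ n ∈ (Icc 1 ⌊x⌋₊).filter (fun n => Nat.Coprime n m),
      n % m ∈ (range m).filter (fun A => Nat.Coprime A m) := by
    intro n hn
    rw [Finset.mem_filter] at hn
    rw [Finset.mem_filter, Finset.mem_range]
    refine ⟨Nat.mod_lt _ (by omega), ?_⟩
    have := hn.2
    rw [Nat.coprime_iff_gcd_eq_one, ← Nat.gcd_rec, Nat.gcd_comm]
    exact this
  rw [← Finset.sum_fiberwise_of_maps_to hmaps]
  refine Finset.sum_congr rfl fun A hA => ?_
  rw [Finset.mem_filter, Finset.mem_range] at hA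
  push_cast
  rw [Finset.sum_mul, Finset.filter_filter]
  refine Finset.sum_congr ?_ ?_
  · ext n
    rw [Finset.mem_filter, Finset.mem_filter]
    constructor
    · rintro ⟨h1, h2, h3⟩
      exact ⟨h1, h3⟩
    · rintro ⟨h1, h3⟩
      refine ⟨h1, ?_, h3⟩
      have h4 := hA.2
      rw [← h3, Nat.coprime_iff_gcd_eq_one, ← Nat.gcd_rec, Nat.gcd_comm] at h4
      exact h4
  · intro n hn
    rw [Finset.mem_filter] at hn
    rw [ex_mod m n (by omega) j, hn.2]

/-- number of prime factors -/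
theorem card_pf (m : ℕ) (hm : 2 ≤ m) : (m.primeFactors.card : ℝ) ≤ 2 * Real.log m := by
  have h1 : 2 ^ m.primeFactors.card ≤ m := by
    calc 2 ^ m.primeFactors.card ≤ ∏ p ∈ m.primeFactors, p := by
          rw [← Finset.prod_const]
          exact Finset.prod_le_prod' fun p hp => (Nat.prime_of_mem_primeFactors hp).two_le
      _ ≤ m := Nat.le_of_dvd (by omega) (Nat.prod_primeFactors_dvd m)
  have h2 : ((2 : ℝ) ^ m.primeFactors.card) ≤ m := by exact_mod_cast h1
  have h3 := Real.log_le_log (by positivity) h2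
  rw [Real.log_pow] at h3
  have h4 : (1 / 2 : ℝ) ≤ Real.log 2 := by
    have := Real.log_two_gt_d9
    linarith
  have h5 : (0 : ℝ) ≤ m.primeFactors.card := Nat.cast_nonneg _
  nlinarith

/-- the integers not coprime to `m` -/
theorem noncop (m : ℕ) (hm : 2 ≤ m) (x : ℝ) (hx : 1 ≤ x) :
    ∑ n ∈ (Icc 1 ⌊x⌋₊).filter (fun n => ¬ Nat.Coprime n m), ArithmeticFunction.vonMangoldt n ≤
      2 * Real.log m * Real.log x := by
  classical
  have h1 : ∑ n ∈ (Icc 1 ⌊x⌋₊).filter (fun n => ¬ Nat.Coprime n m),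
      ArithmeticFunction.vonMangoldt n ≤ ∑ n ∈ Icc 1 ⌊x⌋₊, ∑ p ∈ m.primeFactors,
        if ((n : ZMod p) = 0) then ArithmeticFunction.vonMangoldt n else 0 := by
    have h0 : ∀ n ∈ Icc 1 ⌊x⌋₊, 0 ≤ ∑ p ∈ m.primeFactors,
        if ((n : ZMod p) = 0) then ArithmeticFunction.vonMangoldt n else 0 := by
      intro n _
      refine Finset.sum_nonneg fun p _ => ?_
      split_ifs
      · exact ArithmeticFunction.vonMangoldt_nonneg
      · exact le_refl _
    refine le_trans (Finset.sum_le_sum ?_) (Finset.sum_le_sum_of_subset_of_nonneg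
      (Finset.filter_subset _ _) (fun n hn _ => h0 n hn))
    intro n hn
    rw [Finset.mem_filter] at hn
    obtain ⟨p, hp, hpn, hpm⟩ := Nat.Prime.not_coprime_iff_dvd.1 hn.2
    have hpmem : p ∈ m.primeFactors := by
      rw [Nat.mem_primeFactors]
      exact ⟨hp, hpm, by omega⟩
    have h2 := Finset.single_le_sum (f := fun p : ℕ =>
      if ((n : ZMod p) = 0) then ArithmeticFunction.vonMangoldt n else 0)
      (fun p _ => by
        show (0 : ℝ) ≤ if ((n : ZMod p) = 0) then ArithmeticFunction.vonMangoldt n else 0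
        split_ifs
        · exact ArithmeticFunction.vonMangoldt_nonneg
        · exact le_refl _) hpmem
    refine le_trans (le_of_eq ?_) h2
    show ArithmeticFunction.vonMangoldt n = if ((n : ZMod p) = 0) then _ else _
    rw [if_pos ((ZMod.natCast_eq_zero_iff n p).2 hpn)]
  have hlog : 0 ≤ Real.log x := Real.log_nonneg hx
  calc _ ≤ _ := h1
    _ = ∑ p ∈ m.primeFactors, ∑ n ∈ (Icc 1 ⌊x⌋₊).filter (fun n : ℕ => (n : ZMod p) = 0),
        ArithmeticFunction.vonMangoldt n := by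
        rw [Finset.sum_comm]
        refine Finset.sum_congr rfl fun p _ => ?_
        rw [Finset.sum_filter]
    _ ≤ ∑ p ∈ m.primeFactors, Real.log x :=
        Finset.sum_le_sum fun p hp => TC.psi0_le p (Nat.prime_of_mem_primeFactors hp) x hx
    _ = m.primeFactors.card * Real.log x := by rw [Finset.sum_const, nsmul_eq_mul]
    _ ≤ 2 * Real.log m * Real.log x := mul_le_mul_of_nonneg_right (card_pf m hm) hlog

/-- the divisors of `m` that divide `j` are the divisors of `gcd(a, m)` -/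
theorem div_eq (m q a : ℕ) (hm : 2 ≤ m) (hq : 1 ≤ q) (hqm : q.Coprime m) :
    m.divisors.filter (fun d : ℕ => (d : ℤ) ∣ jj m q a) = (Nat.gcd a m).divisors := by
  ext d
  have h := jj_mul m q a hq hqm
  rw [Finset.mem_filter, Nat.mem_divisors, Nat.mem_divisors]
  have hg : Nat.gcd a m ≠ 0 := Nat.gcd_ne_zero_right (by omega)
  constructor
  · rintro ⟨⟨h1, h2⟩, h3⟩
    refine ⟨Nat.dvd_gcd ?_ h1, hg⟩
    have h4 : (d : ℤ) ∣ jj m q a * q := h3.mul_right _
    rw [h] at h4
    have h5 : (d : ℤ) ∣ (bb m q a : ℤ) * m := (Int.natCast_dvd_natCast.2 h1).mul_left _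
    have h6 : (d : ℤ) ∣ (a : ℤ) := by
      have := dvd_sub h5 h4
      rwa [sub_sub_cancel] at this
    exact_mod_cast h6
  · rintro ⟨h1, _⟩
    have hda : d ∣ a := h1.trans (Nat.gcd_dvd_left a m)
    have hdm : d ∣ m := h1.trans (Nat.gcd_dvd_right a m)
    refine ⟨⟨hdm, by omega⟩, ?_⟩
    have h4 : (d : ℤ) ∣ jj m q a * q := by
      rw [h]
      exact dvd_sub ((Int.natCast_dvd_natCast.2 hdm).mul_left _) (Int.natCast_dvd_natCast.2 hda)
    have hcop : IsCoprime (d : ℤ) (q : ℤ) := by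
      rw [Nat.isCoprime_iff_coprime]
      exact (Nat.Coprime.coprime_dvd_right hdm hqm).symm
    exact hcop.dvd_of_dvd_mul_right h4

end TH2

open TH2 in
/-- `TaskH2` -/
theorem taskH2 : TaskH2 := by
  intro m q a x hm hq ha hqm hx
  classical
  have hth := th_eq m q a (by omega) hq hqm
  set j := jj m q a with hj
  have hφ : (0 : ℝ) < Nat.totient m := by exact_mod_cast Nat.totient_pos.2 (by omega)
  have hE : EE x m (q, a) =
      (∑ A ∈ (range m).filter (fun A => Nat.Coprime A m),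
        ((∑ n ∈ (Icc 1 ⌊x⌋₊).filter (fun n => n % m = A), ArithmeticFunction.vonMangoldt n : ℝ) : ℂ)
          * ex (A * ((j : ℝ) / m))) +
      ∑ n ∈ (Icc 1 ⌊x⌋₊).filter (fun n => ¬ Nat.Coprime n m),
        (ArithmeticFunction.vonMangoldt n : ℂ) * ex (n * ((j : ℝ) / m)) := by
    unfold EE
    rw [← regroup m hm x j]
    simp only [hth]
    rw [Finset.sum_filter_add_sum_filter_not]
  have hD : DDx x m (q, a) =
      (∑ A ∈ (range m).filter (fun A => Nat.Coprime A m),
        ((∑ n ∈ (Icc 1 ⌊x⌋₊).filter (fun n => n % m = A), ArithmeticFunction.vonMangoldt n : ℝ) : ℂ)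
          * ex (A * ((j : ℝ) / m))) -
      ((x / (Nat.totient m : ℝ) : ℝ) : ℂ) *
        ∑ A ∈ (range m).filter (fun A => Nat.Coprime A m), ex ((A : ℝ) * j / m) := by
    unfold DDx
    rw [Finset.mul_sum, ← Finset.sum_sub_distrib]
    refine Finset.sum_congr rfl fun A _ => ?_
    simp only [hth]
    rw [Complex.ofReal_sub, sub_mul, mul_div_assoc]
  have hdiff : EE x m (q, a) - DDx x m (q, a) =
      ((x / (Nat.totient m : ℝ) : ℝ) : ℂ) *
        (∑ A ∈ (range m).filter (fun A => Nat.Coprime A m), ex ((A : ℝ) * j / m)) +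
      ∑ n ∈ (Icc 1 ⌊x⌋₊).filter (fun n => ¬ Nat.Coprime n m),
        (ArithmeticFunction.vonMangoldt n : ℂ) * ex (n * ((j : ℝ) / m)) := by
    rw [hE, hD]
    ring
  rw [hdiff]
  refine (norm_add_le _ _).trans (add_le_add ?_ ?_)
  · rw [norm_mul, Complex.norm_real, Real.norm_of_nonneg (by positivity)]
    refine mul_le_mul_of_nonneg_left ?_ (by positivity)
    have h := H336V.raman m (by omega) j
    rw [hj, div_eq m q a hm hq hqm, ← hj] at h
    exact h
  · refine (norm_sum_le _ _).trans ?_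
    refine le_trans (le_of_eq ?_) (noncop m hm x hx)
    refine Finset.sum_congr rfl fun n _ => ?_
    rw [norm_mul, Gauss.norm_ex, mul_one, Complex.norm_real,
      Real.norm_of_nonneg ArithmeticFunction.vonMangoldt_nonneg]

end H321AP
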